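import Pool.Agent.Run7.h128.NW.Phi
import Pool.Agent.Run7.h128.NW.Box

/-!
# Exact divisors of `(3 - φ) ^ n - 1` in fields containing the golden ratio

`3 - φ = √5 / φ` has norm `5` over `ℚ(√5)`.
-/

set_option autoImplicit false

namespace Pool.Agent.Results.MP_2a5a28_nt.GoldenNonWieferich

open NumberField IsDedekindDomain
open Run7.h283.NW (NonWieferich ExactPrimitive)
open Run7.h128.NW (Rich)

/-- **Theorem.** -/
theorem result :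
    (∃ x₀ : ℕ, ∀ (K : Type) [Field K] [NumberField K] (φ : 𝓞 K), φ ^ 2 = φ + 1 →
      ∀ x : ℕ, x₀ ≤ x → (x : ℝ) / (185 * Real.log x) ≤
        ({p : ℕ | p ≤ x ∧ p.Prime ∧ ((p : ℤ) ∣ discr K ∨ ∃ v : HeightOneSpectrum (𝓞 K),
          (p : 𝓞 K) ∈ v.asIdeal ∧ NonWieferich K (3 - (φ : K)) v)}.ncard : ℝ)) ∧
    (∃ x₀ : ℕ, ∀ x : ℕ, x₀ ≤ x → (x : ℝ) / (185 * Real.log x) ≤
      ({p : ℕ | p ≤ x ∧ p.Prime ∧ (¬ p ^ 2 ∣ 5 ^ (p - 1) - 1 ∨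
        (¬ p ^ 2 ∣ Nat.fib (p - 1) ∧ ¬ p ^ 2 ∣ Nat.fib (p + 1)))}.ncard : ℝ)) ∧
    (∀ (K : Type) [Field K] [NumberField K] (φ : 𝓞 K), φ ^ 2 = φ + 1 →
      (∀ u : K, (u = 3 - (φ : K) ∨ ∃ a b : ℤ, a ≠ 0 ∧ b ≠ 0 ∧ u = (5 : K) ^ a * (φ : K) ^ b) →
        Rich K u ∧ {n : ℕ | ∃ v : HeightOneSpectrum (𝓞 K), ExactPrimitive K u n v}.Infinite) ∧
      (∀ x : K, x ≠ 0 → ∀ k : ℕ, 0 < k → Rich K x ∨ Rich K ((3 - (φ : K)) ^ k * x))) := by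
  refine ⟨Run7.h128.NW.Phi.gold_density, Run7.h128.NW.Phi.fib_density, ?_⟩
  intro K _ _ φ hφ
  have hK : (φ : K) ^ 2 = (φ : K) + 1 := by exact_mod_cast congrArg (algebraMap (𝓞 K) K) hφ
  have h50 : (5 : K) ≠ 0 := by norm_num
  have hφ0 : (φ : K) ≠ 0 := by
    intro h
    rw [h] at hK
    norm_num at hK
  have h30 : (3 : K) - (φ : K) ≠ 0 := by
    intro h
    have h5 : (3 - (φ : K)) * (2 + (φ : K)) = 5 := by linear_combination -hK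
    rw [h, zero_mul] at h5
    exact h50 h5.symm
  have h3 : Units.mk0 _ h30 ∉ Run7.h128.NW.W K := Run7.h128.NW.Phi.gold_not_mem hφ rfl
  refine ⟨fun u hu => ?_, fun x hx k hk => Run7.h128.NW.rich_or h3 hx hk⟩
  have hrich : Rich K u := by
    rcases hu with rfl | ⟨a, b, ha, hb, rfl⟩
    · exact Run7.h128.NW.rich_iff_not_mem.2 h3
    · have h6 : (5 : K) ^ a * (φ : K) ^ b ≠ 0 := mul_ne_zero (zpow_ne_zero _ h50) (zpow_ne_zero _ hφ0)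
      exact Run7.h128.NW.rich_iff_not_mem.2
        (Run7.h128.NW.Phi.five_not_mem hφ ha hb (u := Units.mk0 _ h6) rfl)
  exact ⟨hrich, Run7.h128.NW.infinite_exact hrich⟩

end Pool.Agent.Results.MP_2a5a28_nt.GoldenNonWieferich
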