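import Pool.Agent.Run7.h95.NP.Main
import Pool.Agent.Results.MP_2a5a28_nt.WindowsWithoutExceptions

/-!
# The abc conjecture over the integers of `ℚ(√5)` without exceptions near products of linear forms

Let `A, θ ≥ 0`, `h ≥ 1`, `κ` real and `0 ≤ σ ≤ 1`, `σ < h (17 / 37 - θ)`. For all integer vectors `x` in `[-X, X]^D` with at
most `C Q^(h (D + 2)) X^(D - σ)` exceptions, `C` depending on `D`, ALL coprime triples `a + b + c = 0`, `abc ≠ 0`, of integers of
`ℚ(√5)` whose height `H` satisfies `|H - |t|| ≤ A |t| ^ θ` for ANY product `t = y_1 ⋯ y_h` of `h` linear forms, `y = M x + z`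
with `M` an integral matrix of rank `h` and `z` an integral vector, the entries of `M` and `z` at most `Q`, all `y_j ≠ 0`, have
a radical larger than `κ H`. Here `Q` can be a small power of `X`. We prove a similar result for the integer vectors near `N_n α`, `N_n` a lacunary sequence
(for instance the truncations of the expansions in base `g`, `N_n = g^n`), for all real vectors `α` outside a set of dimension
less than `D`, and `M`, `b` with entries up to a power of `N_n`.

The number of the exceptional triples (up to units) of height at most `X` is at most `C X^(20 / 37 + ε)` (starting theorem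
`ExceptionalSet`). The products of `h` integers form a set of density zero, and so the result for `h ≥ 2` does not follow from
this number alone: the divisor bound shows that few vectors `y` have a product near the height of an exceptional triple, and for
each of the possible `M`, `z` the map `x ↦ M x + z` has small fibres (engine of helper469, `Run7/h469/Vm`, here extended to
windows). The starting file `StarshapedWindows` is about windows with one parameter.
-/

set_option autoImplicit false

namespace Pool.Agent.Results.MP_2a5a28_nt.ProductsOfLinearForms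

open NumberField MeasureTheory
open ExceptionalSet (Triple height rad)
open Run7.h469.Vk (Hits Lacunary Generic Avoids)
open Run7.h469.Vm (ProductIn)

/-- The integers `t` (vectors with one coordinate) with a triple `a + b + c = 0` in lowest terms, `abc ≠ 0`, of height `H`
with `|H - |t|| ≤ A |t| ^ θ` and of radical at most `κ H`. -/
def Bad (K : Type) [Field K] [NumberField K] (k A θ : ℝ) : Set (Fin 1 → ℤ) :=
  {t | ∃ u : 𝓞 K × 𝓞 K × 𝓞 K, Triple u ∧ |height u - (|(t 0 : ℝ)|)| ≤ A * |(t 0 : ℝ)| ^ θ ∧ rad u ≤ k * height u}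

/-- **Theorem.** Let `K = ℚ(√5)`, `A, θ ≥ 0`, `h ≥ 1`, `k` real and `0 ≤ σ ≤ 1`, `σ < h (17 / 37 - θ)`.
(1) There is `C` such that for all `D` and `X, Q ≥ 1`, for all but `C ((D + 1)^h 3^((h + 1) (D + 1))) Q^(h (D + 2)) X^(D - σ)` of
the integer vectors `x` in `[-X, X]^D` no product `t = y_1 ⋯ y_h` of the nonzero coordinates of a vector `y = M x + z`, `M`
integral of rank `h`, with entries of `M` and `z` at most `Q`, is in `Bad`: ALL triples in lowest terms whose height `H`
satisfies `|H - |t|| ≤ A |t| ^ θ` have a radical larger than `k H`; (2) for lacunary `N_i` and `κ ≥ 0`, outside a set of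
`α` in `ℝ^D` of dimension at most `D - σ + h (D + 2) κ` (and almost everywhere for measures of larger dimension), for all `A'`,
for all large `i` the same is true for the integer vectors `x` with `|x - N_i α| ≤ A'` and `M`, `z` with entries at most
`A' N_i^κ`; (3) in particular it is true for almost all `α`, if `h (D + 2) κ < σ`. -/
theorem result : ∀ (K : Type) [Field K] [NumberField K], Module.finrank ℚ K = 2 → (∃ s : K, s ^ 2 = 5) →
    ∀ k A θ : ℝ, 0 ≤ A → 0 ≤ θ → ∀ h : ℕ, 1 ≤ h → ∀ σ : ℝ, 0 ≤ σ → σ ≤ 1 → σ < h * (17 / 37 - θ) →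
    (∃ C : ℝ, ∀ D X Q : ℕ, 1 ≤ X → 1 ≤ Q →
      (({x : Fin D → ℤ | (∀ j, |x j| ≤ X) ∧ x ∈ Hits (ProductIn h (Bad K k A θ)) D Q}.ncard : ℕ) : ℝ) ≤
        C * (((D : ℝ) + 1) ^ h * 3 ^ ((h + 1) * (D + 1))) * (Q : ℝ) ^ (h * (D + 2)) * (X : ℝ) ^ ((D : ℝ) - σ)) ∧
    (∀ D : ℕ, 1 ≤ D → ∀ N : ℕ → ℝ, Lacunary N → ∀ κ : ℝ, 0 ≤ κ →
      Generic ((D : ℝ) - σ + h * (D + 2) * κ) (fun α : Fin D → ℝ => Avoids (ProductIn h (Bad K k A θ)) N κ α)) ∧
    ∀ D : ℕ, 1 ≤ D → ∀ N : ℕ → ℝ, Lacunary N → ∀ κ : ℝ, 0 ≤ κ → h * (D + 2) * κ < σ →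
      ∀ᵐ α : Fin D → ℝ, Avoids (ProductIn h (Bad K k A θ)) N κ α := by
  intro K _ _ hd h5 k A θ hA hθ h hh σ hσ hσ1 hσh
  refine Run7.h95.NP.near_one hh (s := 20 / 37) (by norm_num) hθ hA hσ hσ1 (by
    have e : (1 : ℝ) - 20 / 37 - θ = 17 / 37 - θ := by ring
    rw [e]
    exact hσh) (ι := ℝ) (Bad := fun x => x ∈ WindowsWithoutExceptions.Exc K k) (f := fun x => x)
    (fun ε hε => WindowsWithoutExceptions.count hd h5 k ε hε) fun t ht => ?_
  obtain ⟨u, h1, h2, h3⟩ := ht
  exact ⟨height u, ⟨u, h1, rfl, h3⟩, h2⟩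

end Pool.Agent.Results.MP_2a5a28_nt.ProductsOfLinearForms
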