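import Mathlib
import Pool.Agent.Run7.h720.KAbc

set_option autoImplicit false

/-!
# The abc inequality for sparse integers of `ℚ(√5)` and of all number fields

Let `K` be a number field (on this page `K = ℚ(√5)`, with the ring of integers `ℤ[(1 + √5) / 2]`), `L` a
number field which contains `K` and `Γ` a finitely generated subgroup of the multiplicative group of
`L`. An integer of `K` is called short if it is a sum of `r` terms `x * γ` with `γ` in `Γ` and `x` in `L`
of height at most `B * H ^ δ`. For short triples `a + b + c = 0` in lowest terms with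
`H = H(a, b, c)`, the product over the embeddings of `K` of `max (|a|, |b|, |c|)`, a short integer `ρ` and
an arbitrary integer `τ` of `K` such that `a * b * c` divides `ρ ^ m * τ` we prove

  `H(a, b, c) ≤ C * |N(ρ) * N(τ)| ^ (1 + ε)`

if `δ` is small enough. The product `ρ * τ` takes the place of the radical of `a * b * c`.
-/

namespace Pool.Agent.Results.MP_2a5a28_nt.SparseTriplesAnyCofactor

open NumberField

/-- The element `z` of `K` is a sum of `r` terms `x * γ`, where `γ` is in `Γ` and `x` is an element of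
`L` of (multiplicative) height at most `R`. -/
def IsShort {K L : Type} [Field K] [Field L] [NumberField L] [Algebra K L] (Γ : Subgroup Lˣ) (r : ℕ)
    (R : ℝ) (z : K) : Prop :=
  ∃ (x : Fin r → L) (γ : Fin r → Lˣ), (∀ j, γ j ∈ Γ) ∧ (∀ j, Height.mulHeight₁ (x j) ≤ R) ∧
    algebraMap K L z = ∑ j, x j * (γ j : L)

/-- The height `H(a, b, c)`: the product over the field embeddings `φ : K → ℂ` (two real ones when
`K = ℚ(√5)`) of `max (|φ a|, |φ b|, |φ c|)`. -/
noncomputable def height {K : Type} [Field K] [NumberField K] (a b c : 𝓞 K) : ℝ :=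
  ∏ φ : K →+* ℂ, max ‖φ (a : K)‖ (max ‖φ (b : K)‖ ‖φ (c : K)‖)

/-- The absolute value of the norm of `z`. -/
noncomputable def size {K : Type} [Field K] [NumberField K] (z : 𝓞 K) : ℝ :=
  |((Algebra.norm ℚ (z : K) : ℚ) : ℝ)|

/-- **Main theorem.** Let `K ⊆ L` be number fields, `Γ` a finitely generated subgroup of the
multiplicative group of `L`, `r` and `m` natural numbers, `B` real and `ε > 0`. There are `δ > 0` and
`C > 0` with the following property. Let `a + b + c = 0` be integers of `K` in lowest terms with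
`a * b * c ≠ 0`, and let `ρ`, `τ` be nonzero integers of `K` such that `a * b * c` divides
`ρ ^ m * τ`. If `a`, `b` and `ρ` are sums of `r` terms `x * γ` with `γ` in `Γ` and `x` in `L` of height
at most `B * H(a, b, c) ^ δ`, then `H(a, b, c) ≤ C * (|N(ρ)| * |N(τ)|) ^ (1 + ε)`. -/
theorem result (K L : Type) [Field K] [NumberField K] [Field L] [NumberField L] [Algebra K L]
    (Γ : Subgroup Lˣ) (hΓ : Γ.FG) (r m : ℕ) (B ε : ℝ) (hε : 0 < ε) :
    ∃ δ C : ℝ, 0 < δ ∧ 0 < C ∧ ∀ a b c ρ τ : 𝓞 K, Ideal.span {a, b, c} = (⊤ : Ideal (𝓞 K)) →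
      a + b + c = 0 → a * b * c ≠ 0 → ρ ≠ 0 → τ ≠ 0 → a * b * c ∣ ρ ^ m * τ →
      IsShort Γ r (B * height a b c ^ δ) (a : K) → IsShort Γ r (B * height a b c ^ δ) (b : K) →
      IsShort Γ r (B * height a b c ^ δ) (ρ : K) →
      height a b c ≤ C * (size ρ * size τ) ^ (1 + ε) := by
  obtain ⟨δ, C, hδ, hC, h⟩ := Pool.Agent.Run7.h720.k_abc K L Γ hΓ r m B ε hε
  refine ⟨δ, C, hδ, hC, fun a b c ρ τ h1 h2 h3 h4 h5 h6 h7 h8 h9 =>
    h a b c ρ τ _ rfl ?_ h2 h3 h4 h5 h6 h7 h8 h9⟩
  have e1 : (1 : 𝓞 K) ∈ Ideal.span {a, b, c} := by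
    rw [h1]
    trivial
  rw [Ideal.mem_span_insert] at e1
  obtain ⟨x, z, hz, e2⟩ := e1
  rw [Ideal.mem_span_pair] at hz
  obtain ⟨y, w, e3⟩ := hz
  refine ⟨x - w, y - w, ?_⟩
  have e4 : c = -(a + b) := by linear_combination h2
  rw [e2, ← e3, e4]
  ring

end Pool.Agent.Results.MP_2a5a28_nt.SparseTriplesAnyCofactor
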